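import Pool.Agent.X39.Near.Pow
import Pool.Agent.X39.Near.DepInt

/-!
# Schneider's numbers `α ^ β`, …, `α ^ (β ^ (D - 1))` for ALL algebraic numbers `α` close to any number outside a set of
# dimension zero

Schneider's conjecture: for `α ≠ 0` algebraic, with a fixed logarithm `log α ≠ 0`, and `β` algebraic of degree `D ≥ 2`, the
`D - 1` numbers `α ^ β`, …, `α ^ (β ^ (D - 1))` are algebraically independent. We prove, outside ONE set `E` of complex
numbers of Hausdorff dimension `0` (for all `β`, number fields, degrees and scales): for every `x ≠ 0`, every logarithm `l₀` of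
`x` and every algebraic `β` of degree `D ≥ 2`, these `D - 1` numbers together with `log α`, for ALL `α ∈ F` of height at most
`T` with `|α - x| ≤ T ^ (-ω)` and the determination of `log α` close to `l₀`, satisfy no relation of bounded degree with
coefficients of polynomial size, even approximately; here the coefficients may be polynomials in arbitrary constants
`ξ_1, …, ξ_g` fixed in advance. In particular nonzero integral polynomials `P` of degree at most `d` and of height at most
`T ^ A` satisfy `|P (α ^ β, …, α ^ (β ^ (D - 1)))| > T ^ (-B)`.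

Proof: `exp s`, `s`, `exp (β ^ k s)` are algebraically independent functions; the levels of the library give, on compact
sets, at most `C T ^ ε` exceptional points of height `T`, for every `ε > 0`, and so a limsup set of dimension `0`
(`Pool.Agent.X39.Near`); all `β` and all branches of the logarithm are treated at the same time.
-/

set_option autoImplicit false

open MvPolynomial NumberField

namespace Pool.Agent.Results.MP_452a87_nt.ApproximationsOfAllNumbers

open Pool.Agent.X39.Near (Size Dep)

/-- Schneider's numbers `α ^ β`, …, `α ^ (β ^ m)` for `log α = ℓ` -/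
noncomputable def schneider (m : ℕ) (β ℓ : ℂ) (k : Fin m) : ℂ := Complex.exp (β ^ ((k : ℕ) + 1) * ℓ)

/-- `log α` and Schneider's numbers -/
noncomputable def numbers (m : ℕ) (β ℓ : ℂ) (o : Option (Fin m)) : ℂ := o.elim ℓ (schneider m β ℓ)

/-- the powers of an algebraic number of degree `m + 1` -/
theorem exponents_pow {β : ℂ} {m : ℕ} (hm : (minpoly ℚ β).natDegree = m + 1) :
    Pool.Agent.X39.Near.Ind1 (fun k : Fin m => β ^ ((k : ℕ) + 1)) := by
  intro c₀ c hc
  set p : Polynomial ℚ := Polynomial.C (c₀ : ℚ) + ∑ k : Fin m, Polynomial.C (c k : ℚ) * Polynomial.X ^ ((k : ℕ) + 1) with hp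
  have hev : Polynomial.aeval β p = 0 := by
    rw [hp, map_add, map_sum, ← hc]
    congr 1
    · simp
    · refine Finset.sum_congr rfl fun k _ => ?_
      simp
  have hdeg : p.natDegree < m + 1 := by
    rw [Nat.lt_succ_iff]
    refine (Polynomial.natDegree_add_le _ _).trans (max_le (by simp) ?_)
    refine Polynomial.natDegree_sum_le_of_forall_le _ _ fun k _ => ?_
    refine (Polynomial.natDegree_C_mul_X_pow_le _ _).trans ?_
    have := k.2
    omega
  have h0 : p = 0 := by
    by_contra hne
    have h1 := Polynomial.natDegree_le_of_dvd (minpoly.dvd ℚ β hev) hne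
    omega
  have hco : ∀ n : ℕ, p.coeff n = (if n = 0 then (c₀ : ℚ) else 0) +
      ∑ k : Fin m, if n = (k : ℕ) + 1 then (c k : ℚ) else 0 := by
    intro n
    rw [hp, Polynomial.coeff_add, Polynomial.coeff_C, Polynomial.finsetSum_coeff]
    congr 1
    refine Finset.sum_congr rfl fun k _ => ?_
    rw [Polynomial.coeff_C_mul_X_pow]
  constructor
  · have h1 := hco 0
    rw [h0, Polynomial.coeff_zero, if_pos rfl, Finset.sum_eq_zero (fun k _ => if_neg (by omega)), add_zero] at h1
    exact_mod_cast h1.symm
  · funext k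
    have h1 := hco ((k : ℕ) + 1)
    rw [h0, Polynomial.coeff_zero, if_neg (by omega), zero_add, Finset.sum_eq_single k] at h1
    · rw [if_pos rfl] at h1
      exact_mod_cast h1.symm
    · intro b _ hb
      rw [if_neg]
      intro h
      exact hb (Fin.ext (by omega))
    · intro h
      exact absurd (Finset.mem_univ k) h

/-- **Theorem.** Let `ξ_1, …, ξ_g` be complex numbers. There is a set `E` of complex numbers of Hausdorff dimension `0` such
that for all `x` outside `E`, all `l₀` with `exp l₀ = x`, all algebraic `β` of degree `m + 1`, `m ≥ 1`, all number fields `F`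
with an embedding `ι` in `ℂ`, all `d`, `A` and `ω > 0` there are `B`, `T₁` such that for all `T ≥ T₁` and all `α ∈ F`,
quotients of integers with conjugates at most `T`, with `|ι α - x| ≤ T ^ (-ω)`, and the logarithm `ℓ` of `ι α` with
`|ℓ - l₀| < 1`: (1) there is no relation (`Dep`) between `log α = ℓ`, `α ^ β`, …, `α ^ (β ^ m)`; (2)
`|P (α ^ β, …, α ^ (β ^ m))| > T ^ (-B)` for all nonzero integral polynomials `P` of degree at most `d` in each variable with
coefficients of absolute value at most `T ^ A`. -/
theorem result {g : ℕ} (ξ : Fin g → ℂ) :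
    ∃ E : Set ℂ, dimH E = 0 ∧ ∀ x : ℂ, x ∉ E → ∀ l₀ : ℂ, Complex.exp l₀ = x →
      ∀ (m : ℕ) (β : ℂ), 1 ≤ m → IsAlgebraic ℚ β → (minpoly ℚ β).natDegree = m + 1 →
      ∀ (F : Type) [Field F] [NumberField F] (ι : F →+* ℂ) (d A : ℕ) (ω : ℝ), 0 < ω → ∃ B T₁ : ℝ, ∀ T : ℝ, T₁ ≤ T →
        ∀ α : F, Size F T α → ‖ι α - x‖ ≤ T ^ (-ω) → ∀ ℓ : ℂ, Complex.exp ℓ = ι α → ‖ℓ - l₀‖ < 1 →
          ¬ Dep (numbers m β ℓ) ξ F ι d A B T ∧
          ∀ P : MvPolynomial (Fin m) ℤ, P ≠ 0 → (∀ j, P.degreeOf j ≤ d) →
            (∀ e, |((P.coeff e : ℤ) : ℝ)| ≤ T ^ A) → T ^ (-B) < ‖aeval (schneider m β ℓ) P‖ := by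
  classical
  obtain ⟨E, h1, h2⟩ := Pool.Agent.X39.Near.pw_near {β : ℂ | IsAlgebraic ℚ β} (Algebraic.countable ℚ ℂ) ξ
  refine ⟨E, h1, fun x hx l₀ hl m β _ hβ hm F _ _ ι d A ω hω => ?_⟩
  obtain ⟨B, T₁, h3⟩ := h2 x hx l₀ hl m (fun k => β ^ ((k : ℕ) + 1)) (fun k => hβ.pow _) (exponents_pow hm) F ι d A ω hω
  refine ⟨B, max T₁ 1, fun T hT α hα hαx ℓ hℓ hℓl => ?_⟩
  have hv : numbers m β ℓ = fun j => Pool.Agent.X39.Near.pw (fun k : Fin m => β ^ ((k : ℕ) + 1)) j ℓ := by
    funext j
    rcases j with _ | k <;> rfl
  have h4 : ¬ Dep (numbers m β ℓ) ξ F ι d A B T := by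
    rw [hv]
    exact h3 T ((le_max_left _ _).trans hT) α hα hαx ℓ hℓ hℓl
  have hT1 : 1 ≤ T := (le_max_right _ _).trans hT
  have hT0 : 0 < T := lt_of_lt_of_le one_pos hT1
  refine ⟨h4, fun P hP hPd hPA => ?_⟩
  have hinj : Function.Injective (some : Fin m → Option (Fin m)) := Option.some_injective _
  have h5 := Pool.Agent.X39.Near.int_of_not_dep h4 hT0 (rename some P)
    (fun h => hP ((rename_injective _ hinj) (by rw [h, map_zero]))) (fun j => ?_) (fun e => ?_)
  · rw [aeval_rename] at h5
    exact h5
  · rcases j with _ | j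
    · have h6 : (none : Option (Fin m)) ∉ (rename some P).vars := by
        intro h
        obtain ⟨k, _, hk⟩ := Finset.mem_image.1 (vars_rename (some : Fin m → Option (Fin m)) P h)
        exact absurd hk (Option.some_ne_none k)
      have h7 : (rename some P).degreeOf (none : Option (Fin m)) = 0 := by
        rw [degreeOf_def, Multiset.count_eq_zero]
        intro h
        apply h6
        rw [vars_def, Multiset.mem_toFinset]
        exact h
      rw [h7]
      exact Nat.zero_le _
    · rw [degreeOf_rename_of_injective hinj]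
      exact hPd j
  · by_cases he : ∃ e', Finsupp.mapDomain (some : Fin m → Option (Fin m)) e' = e
    · obtain ⟨e', rfl⟩ := he
      rw [coeff_rename_mapDomain _ hinj]
      exact_mod_cast hPA e'
    · rw [coeff_rename_eq_zero _ _ _ (fun u hu => absurd ⟨u, hu⟩ he), Int.cast_zero, abs_zero]
      positivity

end Pool.Agent.Results.MP_452a87_nt.ApproximationsOfAllNumbers
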